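import Pool.Agent.Helper6_Eng.Stmts

/-! Squad ENG: modules MSP and MSL. -/

set_option autoImplicit false

namespace Pool.Agent.Eng.H81

open Matrix

theorem pd_dvd {G : Type} [Group G] {M N : ℕ} (h : PD G N) (hMN : M ∣ N) : PD G M :=
  fun d hd hl => hMN.trans (h d hd hl)

/-- a lift of an element of order `p ^ k` is not killed by `p ^ (k - 1)` -/
theorem not_pow {G : Type} [Group G] (Z : Subgroup G) [Z.Normal] (g : G) (p k : ℕ)
    (hp : p.Prime) (hk : 1 ≤ k) (hg : orderOf (QuotientGroup.mk g : G ⧸ Z) = p ^ k) :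
    g ^ (p ^ (k - 1)) ≠ 1 := by
  intro h
  have h1 : (QuotientGroup.mk g : G ⧸ Z) ^ (p ^ (k - 1)) = 1 := by
    rw [← QuotientGroup.mk_pow, h, QuotientGroup.mk_one]
  have h2 := orderOf_dvd_of_pow_eq_one h1
  rw [hg, Nat.pow_dvd_pow_iff_le_right hp.one_lt] at h2
  omega

theorem msp (hexp : PdExpStmt) (hlift : LiftStmt) (hgun : GunStmt) (huni : UniStmt)
    (htsp : TspStmt) (hdtw : DtwStmt) (hgod : GodStmt) (hesp : EspStmt) (ht3 : T3Stmt)
    (hbc : SpBcStmt) (hmono : SpMonoStmt) : MainSpStmt := by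
  intro F _ _ n hn
  haveI : Finite (Sp n F) := inferInstance
  refine hexp _ ?_
  rintro p k hp hk ⟨y, hy⟩
  obtain ⟨p0, hp0⟩ := CharP.exists F
  have hp0' : p0.Prime := (CharP.char_is_prime_or_zero F p0).resolve_right
    (CharP.char_ne_zero_of_finite F p0)
  by_cases hpp : p = p0
  · subst hpp
    obtain ⟨g, c, hg, hgk⟩ := hlift (Sp n F) (Subgroup.center (Sp n F)) p k hp ⟨y, hy⟩
    have hlt : p ^ (k - 1) < 2 * n := by
      by_contra hcon
      rw [not_lt] at hcon
      have h1 : (g : Matrix (Fin n ⊕ Fin n) (Fin n ⊕ Fin n) F) ^ (p ^ c) = 1 := by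
        have : g ^ (p ^ c) = 1 := by rw [← hg, pow_orderOf_eq_one]
        have h2 := congrArg (Subtype.val) this
        simpa using h2
      have h2 := hgun F (Fin n ⊕ Fin n) p _ c (k - 1) hp h1 (by
        rw [Fintype.card_sum, Fintype.card_fin]
        omega)
      apply not_pow (Subgroup.center (Sp n F)) g p k hp hk hgk
      apply Subtype.ext
      simpa using h2
    by_cases h2 : p = 2
    · subst h2
      exact htsp F n k hn hk hlt.le
    · exact huni F p n k hp h2 (by omega) hk hlt
  · have hpF : (p : F) ≠ 0 := by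
      intro h
      rw [CharP.cast_eq_zero_iff F p0 p] at h
      exact hpp ((Nat.prime_dvd_prime_iff_eq hp0' hp).mp h).symm
    by_cases h2 : p = 2
    · subst h2
      exact hdtw F n k (by simpa using hpF) hn ⟨y, hy⟩
    · obtain ⟨g, c, hg, hgk⟩ := hlift (Sp n F) (Subgroup.center (Sp n F)) p k hp ⟨y, hy⟩
      have hkc : k ≤ c := by
        have h1 : orderOf (QuotientGroup.mk g : Sp n F ⧸ Subgroup.center (Sp n F)) ∣ orderOf g :=
          orderOf_map_dvd (QuotientGroup.mk' (Subgroup.center (Sp n F))) g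
        rwa [hg, hgk, Nat.pow_dvd_pow_iff_le_right hp.one_lt] at h1
      obtain ⟨i, hi1, hin, hi⟩ := hgod F p c n g hp h2 hpF (by omega) hg
      by_cases h3 : p ^ k = 3 ∧ (2 : F) = 0
      · haveI : CharP F 2 := by
          have : p0 ∣ 2 := by
            rw [← CharP.cast_eq_zero_iff F p0 2]
            exact_mod_cast h3.2
          have h5 : p0 = 2 := (Nat.prime_dvd_prime_iff_eq hp0' Nat.prime_two).mp this
          rw [← h5]
          exact hp0
        letI : Algebra (ZMod 2) F := ZMod.algebra F 2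
        rw [h3.1]
        exact hmono F 2 n 3 hn (hbc (ZMod 2) F 2 3 ht3)
      · refine hmono F i n _ hin (hesp F p k i hp h2 hk hi1 ?_ h3)
        have h4 : p ^ k ∣ p ^ c := Nat.pow_dvd_pow p hkc
        rcases hi with hi | hi
        · exact Or.inl (h4.trans hi)
        · exact Or.inr (h4.trans hi)

theorem msl (hexp : PdExpStmt) (hlift : LiftStmt) (hgun : GunStmt) (huni : UniStmt)
    (htsp : TspStmt) (hsl : SpSlStmt) (hls3 : Ls3Stmt) (hlbc : LbcStmt) (hlodd : LoddStmt)
    (hltwo : LtwoStmt) : MainSlStmt := by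
  intro F _ _ n hn
  haveI : Finite (Matrix.SpecialLinearGroup (Fin n) F) := inferInstance
  haveI : Finite (PSL n F) := inferInstanceAs (Finite (Matrix.SpecialLinearGroup (Fin n) F ⧸
    Subgroup.center (Matrix.SpecialLinearGroup (Fin n) F)))
  refine hexp _ ?_
  rintro p k hp hk ⟨y, hy⟩
  obtain ⟨p0, hp0⟩ := CharP.exists F
  have hp0' : p0.Prime := (CharP.char_is_prime_or_zero F p0).resolve_right
    (CharP.char_ne_zero_of_finite F p0)
  by_cases hpp : p = p0
  · subst hpp
    obtain ⟨g, c, hg, hgk⟩ := hlift (Matrix.SpecialLinearGroup (Fin n) F)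
      (Subgroup.center (Matrix.SpecialLinearGroup (Fin n) F)) p k hp ⟨y, hy⟩
    have hlt : p ^ (k - 1) < n := by
      by_contra hcon
      rw [not_lt] at hcon
      have h1 : (g : Matrix (Fin n) (Fin n) F) ^ (p ^ c) = 1 := by
        have : g ^ (p ^ c) = 1 := by rw [← hg, pow_orderOf_eq_one]
        have h2 := congrArg (Subtype.val) this
        simpa using h2
      have h2 := hgun F (Fin n) p _ c (k - 1) hp h1 (by
        rw [Fintype.card_fin]
        omega)
      apply not_pow (Subgroup.center (Matrix.SpecialLinearGroup (Fin n) F)) g p k hp hk hgk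
      apply Subtype.ext
      simpa using h2
    by_cases h2 : p = 2
    · subst h2
      by_cases h3 : n = 3
      · subst h3
        have hk2 : k ≤ 2 := by
          by_contra hcon
          have : 2 ^ 2 ≤ 2 ^ (k - 1) := Nat.pow_le_pow_right (by norm_num) (by omega)
          omega
        letI : Algebra (ZMod 2) F := ZMod.algebra F 2
        exact pd_dvd (hlbc (ZMod 2) F 3 4 hls3) (by
          have := Nat.pow_dvd_pow 2 hk2
          simpa using this)
      · exact hsl F (n / 2) n _ (by omega) (by omega)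
          (htsp F (n / 2) k (by omega) hk (by omega))
    · refine hsl F (n / 2) n _ (by omega) (by omega) (huni F p (n / 2) k hp h2 (by omega) hk ?_)
      have hodd : Odd (p ^ (k - 1)) := (hp.odd_of_ne_two h2).pow
      obtain ⟨t, ht⟩ := hodd
      omega
  · have hpF : (p : F) ≠ 0 := by
      intro h
      rw [CharP.cast_eq_zero_iff F p0 p] at h
      exact hpp ((Nat.prime_dvd_prime_iff_eq hp0' hp).mp h).symm
    by_cases h2 : p = 2
    · subst h2
      exact hltwo F n k hn (by simpa using hpF) ⟨y, hy⟩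
    · exact hlodd F n p k hn hp h2 hpF ⟨y, hy⟩

end Pool.Agent.Eng.H81
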