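import Pool.Agent.Helper13_Eng2.Stmts
import Pool.Agent.Helper4_Eng.Grt

/-! Squad ENG, part 2, module GUB: the conjugates of an eigenvalue. -/

set_option autoImplicit false

namespace Pool.Agent.Eng.H81

open Matrix Polynomial

/-- the conjugates of an eigenvalue -/
lemma conj_eig (hGUE : GueStmt) (K : Type) [Field K] [Finite K] [StarRing K] (q n : ℕ) (g : SU n K)
    (lam : AlgebraicClosure K) (hq : StarQ K q) (hlam : Eig (g : Matrix (Fin n) (Fin n) K) lam) :
    ∃ u : (AlgebraicClosure K)ˣ, (u : AlgebraicClosure K) = lam ∧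
      (∀ j : ℕ, Eig (g : Matrix (Fin n) (Fin n) K)
        ((u ^ ((-(q : ℤ)) ^ j) : (AlgebraicClosure K)ˣ) : AlgebraicClosure K)) ∧
      ∀ i j : ℕ, i < j → u ^ ((-(q : ℤ)) ^ i) = u ^ ((-(q : ℤ)) ^ j) →
        (orderOf lam : ℤ) ∣ (-(q : ℤ)) ^ (j - i) - 1 := by
  classical
  have h0 := (hGUE K q n g lam hq hlam).1
  set A : Matrix (Fin n) (Fin n) K := (g : Matrix (Fin n) (Fin n) K) with hA
  have hfin : Finite (SU n K) := inferInstance
  have hord : A ^ orderOf g = 1 := by
    have h1 : g ^ orderOf g = 1 := pow_orderOf_eq_one g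
    have h3 := congrArg Subtype.val h1
    rwa [SubmonoidClass.coe_pow] at h3
  have hop : 0 < orderOf g := orderOf_pos g
  have hpow := H4.eig_pow A (orderOf g) hord lam hlam
  have hN : 0 < orderOf lam := orderOf_pos_iff.mpr (isOfFinOrder_iff_pow_eq_one.mpr
    ⟨_, hop, hpow⟩)
  obtain ⟨p, hp⟩ := CharP.exists K
  have := Fintype.ofFinite K
  obtain ⟨f, hpp, hf⟩ := FiniteField.card K p
  have hfp : Fact p.Prime := ⟨hpp⟩
  obtain ⟨k, hk⟩ : ∃ k, q = p ^ k := by
    have h1 : q ∣ p ^ (f : ℕ) := by
      rw [← hf, ← Nat.card_eq_fintype_card, hq.card]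
      exact ⟨q, by ring⟩
    obtain ⟨k, _, hk⟩ := (Nat.dvd_prime_pow hpp).mp h1
    exact ⟨k, hk⟩
  have hpc : CharP (AlgebraicClosure K) p := charP_of_injective_algebraMap
    (algebraMap K (AlgebraicClosure K)).injective p
  have hcop : Nat.Coprime (orderOf lam) q := by
    rw [hk]
    apply Nat.Coprime.pow_right
    rw [Nat.coprime_comm, hpp.coprime_iff_not_dvd]
    rintro ⟨m, hm⟩
    have h1 : lam ^ (p ^ 1 * m) = 1 := by
      rw [pow_one, ← hm]
      exact pow_orderOf_eq_one lam
    have hex : ExpChar (AlgebraicClosure K) p := ExpChar.prime hpp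
    have h2 : lam ^ m = 1 := (ExpChar.pow_prime_pow_mul_eq_one_iff p 1 m lam).1 h1
    have hm0 : 0 < m := by
      rcases Nat.eq_zero_or_pos m with h3 | h3
      · rw [h3, mul_zero] at hm
        omega
      · exact h3
    have h3 := Nat.le_of_dvd hm0 (orderOf_dvd_of_pow_eq_one h2)
    have h4 := hpp.two_le
    rw [hm] at h3
    nlinarith
  set u : (AlgebraicClosure K)ˣ := Units.mk0 lam h0 with hu
  have hord' : orderOf u = orderOf lam := by
    rw [← orderOf_units]
    rfl
  refine ⟨u, rfl, ?_, ?_⟩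
  · intro j
    induction j with
    | zero => simpa [hu] using hlam
    | succ j ih =>
      have h1 := (hGUE K q n g _ hq ih).2
      have h2 : ((u ^ ((-(q : ℤ)) ^ (j + 1)) : (AlgebraicClosure K)ˣ) : AlgebraicClosure K) =
          (((u ^ ((-(q : ℤ)) ^ j) : (AlgebraicClosure K)ˣ) : AlgebraicClosure K) ^ q)⁻¹ := by
        rw [pow_succ, _root_.zpow_mul, _root_.zpow_neg, _root_.zpow_natCast]
        simp
      rw [h2]
      exact h1
  · intro i j hij he
    have h1 : u ^ ((-(q : ℤ)) ^ j - (-(q : ℤ)) ^ i) = 1 := by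
      rw [_root_.zpow_sub, he, mul_inv_cancel]
    rw [← orderOf_dvd_iff_zpow_eq_one, hord'] at h1
    have h2 : (-(q : ℤ)) ^ j - (-(q : ℤ)) ^ i = (-(q : ℤ)) ^ i * ((-(q : ℤ)) ^ (j - i) - 1) := by
      rw [mul_sub, mul_one, ← pow_add, Nat.add_sub_cancel' hij.le]
    rw [h2] at h1
    have h3 : IsCoprime (orderOf lam : ℤ) ((-(q : ℤ)) ^ i) := by
      apply IsCoprime.pow_right
      rw [IsCoprime.neg_right_iff]
      exact Nat.isCoprime_iff_coprime.mpr hcop
    exact h3.dvd_of_dvd_mul_left h1

/-- GUB -/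
theorem gub (hGUE : GueStmt) : GubStmt := by
  classical
  intro K _ _ _ q n g lam hq hlam
  obtain ⟨u, hu, h1, h2⟩ := conj_eig hGUE K q n g lam hq hlam
  set A : Matrix (Fin n) (Fin n) K := (g : Matrix (Fin n) (Fin n) K) with hA
  set F : ℕ → AlgebraicClosure K :=
    fun j => ((u ^ ((-(q : ℤ)) ^ j) : (AlgebraicClosure K)ˣ) : AlgebraicClosure K) with hF
  have hne : A.charpoly ≠ 0 := (Matrix.charpoly_monic A).ne_zero
  have hmem : ∀ j, F j ∈ (A.charpoly.aroots (AlgebraicClosure K)).toFinset := by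
    intro j
    rw [Multiset.mem_toFinset, Polynomial.mem_aroots]
    exact ⟨hne, h1 j⟩
  have hcard : (A.charpoly.aroots (AlgebraicClosure K)).toFinset.card ≤ n := by
    refine (Multiset.toFinset_card_le _).trans ?_
    refine (Polynomial.card_roots' _).trans ?_
    refine (Polynomial.natDegree_map_le).trans ?_
    rw [Matrix.charpoly_natDegree_eq_dim, Fintype.card_fin]
  obtain ⟨i, hi, j, hj, hij, he⟩ := Finset.exists_ne_map_eq_of_card_lt_of_maps_to
    (s := Finset.range (n + 1)) (t := (A.charpoly.aroots (AlgebraicClosure K)).toFinset)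
    (by rw [Finset.card_range]; omega) (f := F) (fun j _ => hmem j)
  rw [Finset.mem_range] at hi hj
  rcases lt_or_gt_of_ne hij with h3 | h3
  · exact ⟨j - i, by omega, by omega, h2 i j h3 (Units.ext he)⟩
  · exact ⟨i - j, by omega, by omega, h2 j i h3 (Units.ext he.symm)⟩

/-- GUD -/
theorem gud (hGUE : GueStmt) : GudStmt := by
  classical
  intro K _ _ _ q n g lam hq hlam hno
  obtain ⟨u, hu, h1, h2⟩ := conj_eig hGUE K q n g lam hq hlam
  set A : Matrix (Fin n) (Fin n) K := (g : Matrix (Fin n) (Fin n) K) with hA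
  set F : ℕ → AlgebraicClosure K :=
    fun j => ((u ^ ((-(q : ℤ)) ^ j) : (AlgebraicClosure K)ˣ) : AlgebraicClosure K) with hF
  have hne : A.charpoly ≠ 0 := (Matrix.charpoly_monic A).ne_zero
  have hmem : ∀ j, F j ∈ A.charpoly.aroots (AlgebraicClosure K) := by
    intro j
    rw [Polynomial.mem_aroots]
    exact ⟨hne, h1 j⟩
  have hinj : Set.InjOn F (Finset.range n : Set ℕ) := by
    intro i hi j hj he
    rw [Finset.coe_range, Set.mem_Iio] at hi hj
    by_contra hij
    rcases lt_or_gt_of_ne hij with h3 | h3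
    · exact hno (j - i) (by omega) (by omega) (h2 i j h3 (Units.ext he))
    · exact hno (i - j) (by omega) (by omega) (h2 j i h3 (Units.ext he.symm))
  have hle : ((Finset.range n).val.map F) ≤ A.charpoly.aroots (AlgebraicClosure K) := by
    rw [Multiset.le_iff_subset]
    · intro x hx
      obtain ⟨j, _, rfl⟩ := Multiset.mem_map.mp hx
      exact hmem j
    · exact Multiset.Nodup.map_on (fun i hi j hj he => hinj hi hj he) (Finset.range n).nodup
  have hcard : Multiset.card (A.charpoly.aroots (AlgebraicClosure K)) ≤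
      Multiset.card ((Finset.range n).val.map F) := by
    rw [Multiset.card_map]
    refine (Polynomial.card_roots' _).trans ?_
    refine (Polynomial.natDegree_map_le).trans ?_
    rw [Matrix.charpoly_natDegree_eq_dim, Fintype.card_fin, ← Finset.card_def, Finset.card_range]
  have heq := Multiset.eq_of_le_of_card_le hle hcard
  have hdet : A.det = 1 := by
    have := g.2
    rw [Matrix.mem_specialUnitaryGroup_iff] at this
    exact this.2
  have hprod : (A.charpoly.aroots (AlgebraicClosure K)).prod = 1 := by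
    have h3 := Matrix.det_eq_prod_roots_charpoly
      (A := A.map (algebraMap K (AlgebraicClosure K)))
    rw [Matrix.charpoly_map] at h3
    have h4 : (A.map (algebraMap K (AlgebraicClosure K))).det = 1 := by
      have := RingHom.map_det (algebraMap K (AlgebraicClosure K)) A
      rw [RingHom.mapMatrix_apply] at this
      rw [← this, hdet, map_one]
    rw [h4] at h3
    exact h3.symm
  rw [← heq] at hprod
  have h5 : u ^ (∑ j ∈ Finset.range n, (-(q : ℤ)) ^ j) = 1 := by
    have h6 : u ^ (∑ j ∈ Finset.range n, (-(q : ℤ)) ^ j) =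
        ∏ j ∈ Finset.range n, u ^ ((-(q : ℤ)) ^ j) := by
      generalize Finset.range n = s
      induction s using Finset.induction_on with
      | empty => simp
      | insert a s ha ih => rw [Finset.sum_insert ha, Finset.prod_insert ha, _root_.zpow_add, ih]
    rw [h6]
    apply Units.ext
    rw [Units.coe_prod, Units.val_one]
    exact hprod
  rw [← orderOf_dvd_iff_zpow_eq_one] at h5
  rwa [← orderOf_units, hu] at h5

end Pool.Agent.Eng.H81
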